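import Pool.Agent.H629Z.SaxlA4

set_option autoImplicit false

/-- For every `b ≥ 2` there is a finite primitive permutation group of base size exactly `b`
with two distinct points that have no common neighbour in the generalised Saxl graph. -/
theorem Pool.Agent.Results.MP_a6eddd_al.AllBaseSizes.result :
    ∀ b : ℕ, 2 ≤ b →
    ∃ (Ω : Type) (_ : Finite Ω) (G : Subgroup (Equiv.Perm Ω)),
      MulAction.IsPreprimitive G Ω ∧
      (∃ B : Finset Ω, B.card = b ∧ ∀ g ∈ G, (∀ x ∈ B, g x = x) → g = 1) ∧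
      (∀ B : Finset Ω, (∀ g ∈ G, (∀ x ∈ B, g x = x) → g = 1) → b ≤ B.card) ∧
      ∃ α β : Ω, α ≠ β ∧ ¬ ∃ γ : Ω,
        (γ ≠ α ∧ ∃ B : Finset Ω, B.card = b ∧ α ∈ B ∧ γ ∈ B ∧
            ∀ g ∈ G, (∀ x ∈ B, g x = x) → g = 1) ∧
        (γ ≠ β ∧ ∃ B : Finset Ω, B.card = b ∧ β ∈ B ∧ γ ∈ B ∧
            ∀ g ∈ G, (∀ x ∈ B, g x = x) → g = 1) :=
  Pool.Agent.H629Z.SaxlA4.main
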